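import Mathlib
import Pool.Agent.H50.Crown2

namespace Pool.Agent.Results.MP_354fda_al.Lower

open MvPolynomial

/-- The crown graph: `(i, false)` is the vertex `2i-1`, `(j, true)` is the vertex `2j`. -/
def crown (n : ℕ) : SimpleGraph (Fin n × Bool) where
  Adj u v := u.1 ≠ v.1 ∧ u.2 ≠ v.2
  symm := ⟨fun _ _ h => ⟨h.1.symm, h.2.symm⟩⟩
  loopless := ⟨fun _ h => h.1 rfl⟩

/-- The polynomial ring in the variables `x v`, `y v`. -/
abbrev S (K : Type) [Field K] (n : ℕ) := MvPolynomial ((Fin n × Bool) × Bool) K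

noncomputable def x (K : Type) [Field K] {n : ℕ} (v : Fin n × Bool) : S K n := X (v, true)

noncomputable def y (K : Type) [Field K] {n : ℕ} (v : Fin n × Bool) : S K n := X (v, false)

/-- The binomial edge ideal of the crown graph. -/
noncomputable def J (K : Type) [Field K] (n : ℕ) : Ideal (S K n) :=
  Ideal.span {p | ∃ u v, (crown n).Adj u v ∧ p = x K u * y K v - x K v * y K u}

/-- The prime `P_T`. -/
noncomputable def P (K : Type) [Field K] {n : ℕ} (T : Set (Fin n × Bool)) : Ideal (S K n) :=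
  Ideal.span ({p | ∃ v ∈ T, p = x K v ∨ p = y K v} ∪
    {p | ∃ u v : (Tᶜ : Set (Fin n × Bool)), ((crown n).induce Tᶜ).Reachable u v ∧
      p = x K u.1 * y K v.1 - x K v.1 * y K u.1})

theorem result (K : Type) [Field K] (n : ℕ) (hn : 4 ≤ n) (T : Set (Fin n × Bool)) (f : S K n)
    (hf : f.totalDegree ≤ 3) : ¬ ∀ g : S K n, g * f ∈ J K n ↔ g ∈ P K T := by
  intro h
  have h1 : f ∈ J K n := by
    refine H50.Crown.main hn T f hf (fun l hl b => (h _).2 (Ideal.subset_span (Or.inl ⟨l, hl, ?_⟩)))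
      fun a b c ha hb hc hac hcb => (h _).2 (Ideal.subset_span (Or.inr ⟨⟨a, ha⟩, ⟨b, hb⟩, ?_, rfl⟩))
    · cases b
      exacts [Or.inr rfl, Or.inl rfl]
    · exact (SimpleGraph.Adj.reachable (G := (crown n).induce Tᶜ) (u := ⟨a, ha⟩) (v := ⟨c, hc⟩) hac).trans
        (SimpleGraph.Adj.reachable (G := (crown n).induce Tᶜ) (u := ⟨c, hc⟩) (v := ⟨b, hb⟩) hcb)
  have h2 : P K T ≤ RingHom.ker (constantCoeff : S K n →+* K) := by
    refine Ideal.span_le.2 ?_
    rintro _ (⟨v, -, rfl | rfl⟩ | ⟨u, v, -, rfl⟩) <;> simp [x, y]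
  simpa using h2 ((h 1).1 (by rwa [one_mul]))

end Pool.Agent.Results.MP_354fda_al.Lower
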